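import Pool.Agent.Q212.MengerE

/-!
# `MP_18f314_lc`, Q1: no, already for Cohen forcing and the Cantor space

*If `P` is strongly proper for stationarily many models and player II has a winning strategy in the
Menger game on `(X, τ)`, does `P` force that II has a winning strategy in the Menger game on `X`
with the topology generated by `τ`?*

No. Let `P` be Cohen forcing, which adds one Cohen real `c`, and let `X` be the Cantor space of the
ground model. Since `X` is compact, II wins in the first inning. In the extension player I can use
the covers `U_h` which consist of the sets `{x ∈ X | x and h(c) differ below n}` (`n ∈ ω`), where
`h` is a continuous injection of the Cantor space into itself from the ground model (note that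
`h(c)` is not in the ground model). Suppose that `p` forces that `S` is a winning strategy of II.
For every finite sequence `s` of such covers and every condition `q ≤ p`, all but countably many
points `z` of the ground model have the following property: some `r ≤ q` and some `h` are such that
`r` forces that the answer of `S` to `(s, U_h)` does not cover `z` (otherwise apply the perfect set
theorem to the closed set of the exceptions to find `h`, and consider the answer to `U_h`). Hence
all but countably many `z` have this property for all positions `s` in a suitable countable
family which is closed under the moves used and for all `q`; for such a `z` the generic
filter produces a run in which `z` is never covered.

The forcing relation. A sentence of the forcing language of `P` is represented by the set of the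
conditions which force it (`Pool.Agent.Helper669.Forcing`). A name of a subset of `X` is a map from
`X` to sets of conditions, and a name of a family of subsets of `X` is a map from names of subsets
to sets of conditions. All the definitions are in `Pool.Agent.Q212.MengerF`; Cohen forcing
`Coh` is defined in `Pool.Agent.Q212.MengerC`.
-/

set_option autoImplicit false

namespace Pool.Agent.Results.MP_18f314_lc.MengerCohen

open Pool.Agent.Q212.MG Pool.Agent.Helper669.Forcing

universe v

/-- **Main theorem.** Cohen forcing `Coh` is strongly proper for stationarily many models, player II
has a winning strategy in the Menger game on the Cantor space `ℕ → Bool`, and every condition of
`Coh` forces that in the extension player II has no winning strategy in the Menger game on the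
Cantor space of the ground model with the topology generated by its open sets. -/
theorem result : StronglyProperStat.{0, v} Coh ∧ WinsMenger (ℕ → Bool) ∧
    ∀ p : Coh, p ∈ fnot (MengerForced Coh (ℕ → Bool)) :=
  ⟨stronglyProper_of_countable Coh, winsMenger_of_compact _, not_mengerForced⟩

end Pool.Agent.Results.MP_18f314_lc.MengerCohen
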